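import Pool.Agent.L7h51.KM.Stm

/-! Project KM (helper51, MP_d197f9_co): part STX. -/

namespace Pool.Agent.L7h60.KM

open Set Cardinal Pool.Agent.L7h51.KM

universe u

theorem s_STX (hRL : S_RL.{u}) (hDEL : S_DEL.{u}) (hIND : S_IND.{u}) : S_STX.{u} := by
  intro α M r l hr hl hrl hsm ι _ _ hι A Ai D C e z hAE hAl hAAi hD hC hCD heA hzAi hCAi hlt
  have hzC : ∀ i, z i ∈ C i ∧ z i ∈ D i := fun i => by
    have h : z i ∈ C i ∩ D i := by rw [hCD i]; simp
    exact h
  have hzA : ∀ i, z i ∉ A := fun i h => hzAi i (hAAi i h)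
  set Y : ι → Set α := fun i => C i \ A with hY
  have hYAi : ∀ i, ∀ x ∈ Y i, x ∉ Ai i := fun i x hx h => hx.2 (hCAi i ⟨hx.1, h⟩)
  have hYlt : ∀ i j, i < j → ∀ x ∈ Y i, x ∉ Y j :=
    fun i j hij x hx hx' => hYAi j x hx' (hlt i j hij (Or.inr hx.1))
  have hYd : ∀ i j, i ≠ j → ∀ x ∈ Y i, x ∉ Y j := by
    intro i j hij x hx hx'
    rcases lt_or_gt_of_ne hij with h | h
    · exact hYlt i j h x hx hx'
    · exact hYlt j i h x hx' hx
  have hzY : ∀ i, z i ∈ Y i := fun i => ⟨(hzC i).1, hzA i⟩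
  have hDY : ∀ i, ∀ x ∈ Y i, x ∈ D i → x = z i := by
    intro i x hx hxD
    have h : x ∈ C i ∩ D i := ⟨hx.1, hxD⟩
    rw [hCD i] at h
    rcases h with h | h
    · exact absurd (h ▸ heA i) hx.2
    · exact h
  have hDYlt : ∀ i j, i < j → ∀ x ∈ Y j, x ∉ D i :=
    fun i j hij x hx hxD => hYAi j x hx (hlt i j hij (Or.inl hxD))
  have hYE : ∀ i, Y i ⊆ M.E := fun i => sdiff_subset.trans (hC i).subset_ground
  obtain ⟨B, hB⟩ := M.exists_isBase
  have hW : ∀ i, ∃ W ⊆ B, Cardinal.mk W < r ∧ C i ⊆ M.closure W := fun i => by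
    refine hRL α M r r hr le_rfl hsm B (C i) hB.indep ?_ (hsm _ (hC i))
    rw [hB.closure_eq]; exact (hC i).subset_ground
  choose W hWB hWr hCW using hW
  obtain ⟨HA, hHAB, hHAl, hAHA⟩ := hRL α M r l hl hrl.le hsm B A hB.indep
    (by rw [hB.closure_eq]; exact hAE) hAl
  obtain ⟨G₀, S, hG₀, hS, hSd⟩ := hDEL α ι W r l hr hl hrl hι hWr
  set G : Set α := (G₀ ∩ B) ∪ HA with hG
  have hGB : G ⊆ B := union_subset inter_subset_right hHAB
  have hGl : Cardinal.mk G < l := by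
    refine (mk_union_le _ _).trans_lt ?_
    exact add_lt_of_lt hl.aleph0_le ((mk_le_mk_of_subset inter_subset_left).trans_lt hG₀) hHAl
  have hWsub : ∀ i, W i \ G ⊆ W i \ G₀ := fun i x hx =>
    ⟨hx.1, fun h => hx.2 (Or.inl ⟨h, hWB i hx.1⟩)⟩
  have hWG : S.PairwiseDisjoint (fun i => W i \ G) := fun i hi j hj hij =>
    (hSd hi hj hij).mono (hWsub i) (hWsub j)
  have hGi : M.Indep G := hB.indep.subset hGB
  have hQ : ∀ i, ∃ J, M.IsBasis J (G ∪ (Y i \ {z i})) ∧ G ⊆ J := fun i =>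
    hGi.subset_isBasis_of_subset subset_union_left
      (union_subset hGi.subset_ground (sdiff_subset.trans (hYE i)))
  choose J hJb hGJ using hQ
  set Q : ι → Set α := fun i => J i \ G with hQd
  have hGQ : ∀ i, G ∪ Q i = J i := fun i => union_sdiff_cancel (hGJ i)
  have hQY : ∀ i, Q i ⊆ Y i \ {z i} := fun i x hx => by
    rcases (hJb i).subset hx.1 with h | h
    · exact absurd h hx.2
    · exact h
  have hQG : ∀ i, Disjoint G (Q i) := fun i => disjoint_sdiff_right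
  have hQi : ∀ i, M.Indep (G ∪ Q i) := fun i => by rw [hGQ]; exact (hJb i).indep
  have hzcl : ∀ i, z i ∈ M.closure (G ∪ Q i) := by
    intro i
    rw [hGQ]
    have h1 : z i ∈ M.closure (C i \ {z i}) :=
      (hC i).mem_closure_sdiff_singleton_of_mem (hzC i).1
    refine Matroid.closure_subset_closure_of_subset_closure ?_ h1
    rintro x ⟨hx, hxz⟩
    by_cases hxA : x ∈ A
    · exact M.closure_subset_closure (subset_union_right.trans (hGJ i)) (hAHA hxA)
    · exact (hJb i).subset_closure (Or.inr ⟨⟨hx, hxA⟩, hxz⟩)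
  have hT : M.Indep (G ∪ ⋃ i ∈ S, Q i) := hIND α ι M B G W Q S hB.indep hGB hWB hWG
    (fun i _ => hQi i) (fun i _ => hQG i)
    (fun i _ => (hQY i).trans (sdiff_subset.trans (sdiff_subset.trans (hCW i))))
  have hzQY : ∀ j, {z j} ∪ Q j ⊆ Y j := by
    rintro j x (hx | hx)
    · rw [mem_singleton_iff.1 hx]; exact hzY j
    · exact (hQY j hx).1
  have hR : M.Indep (⋃ i ∈ S, ({z i} ∪ Q i)) := by
    have hRE : (⋃ i ∈ S, ({z i} ∪ Q i)) ⊆ M.E :=
      iUnion₂_subset fun i _ => (hzQY i).trans (hYE i)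
    rw [Matroid.indep_iff_forall_subset_not_isCircuit hRE]
    intro K hKR hK
    have hKY : ∀ x ∈ K, ∃ j ∈ S, x ∈ {z j} ∪ Q j := fun x hx => by
      obtain ⟨j, hj, hx'⟩ := mem_iUnion₂.1 (hKR hx)
      exact ⟨j, hj, hx'⟩
    have hTne : {i | i ∈ S ∧ (K ∩ ({z i} ∪ Q i)).Nonempty}.Nonempty := by
      obtain ⟨x, hx⟩ := hK.nonempty
      obtain ⟨j, hj, hx'⟩ := hKY x hx
      exact ⟨j, hj, x, hx, hx'⟩
    obtain ⟨i, ⟨hiS, hiK⟩, hmin⟩ := (wellFounded_lt (α := ι)).has_min _ hTne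
    have hle : ∀ j ∈ S, ∀ x ∈ K, x ∈ {z j} ∪ Q j → i ≤ j := fun j hj x hx hx' =>
      not_lt.1 (hmin j ⟨hj, x, hx, hx'⟩)
    by_cases hz : z i ∈ K
    · apply hK.inter_isCocircuit_ne_singleton (hD i) (e := z i)
      ext x
      constructor
      · rintro ⟨hxK, hxD⟩
        obtain ⟨j, hj, hx'⟩ := hKY x hxK
        rcases (hle j hj x hxK hx').eq_or_lt with h | h
        · subst h
          exact hDY i x (hzQY i hx') hxD
        · exact absurd hxD (hDYlt i j h x (hzQY j hx'))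
      · intro hx
        rw [mem_singleton_iff.1 hx]
        exact ⟨hz, (hzC i).2⟩
    · obtain ⟨q, hqK, hq⟩ := hiK
      have hqQ : q ∈ Q i := by
        rcases hq with h | h
        · exact absurd (mem_singleton_iff.1 h ▸ hqK) hz
        · exact h
      have hqT : q ∈ G ∪ ⋃ i ∈ S, Q i := Or.inr (mem_biUnion hiS hqQ)
      apply hT.notMem_closure_sdiff_of_mem hqT
      have h1 : q ∈ M.closure (K \ {q}) := hK.mem_closure_sdiff_singleton_of_mem hqK
      refine Matroid.closure_subset_closure_of_subset_closure ?_ h1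
      have hTE : (G ∪ ⋃ i ∈ S, Q i) \ {q} ⊆ M.E := sdiff_subset.trans hT.subset_ground
      have hGT : G ⊆ (G ∪ ⋃ i ∈ S, Q i) \ {q} := fun y hy =>
        ⟨Or.inl hy, fun h => hqQ.2 (mem_singleton_iff.1 h ▸ hy)⟩
      have hQT : ∀ j ∈ S, j ≠ i → Q j ⊆ (G ∪ ⋃ i ∈ S, Q i) \ {q} := fun j hj hji y hy =>
        ⟨Or.inr (mem_biUnion hj hy), fun h => hYd j i hji y (hQY j hy).1
          (mem_singleton_iff.1 h ▸ (hQY i hqQ).1)⟩
      rintro x ⟨hxK, hxq⟩
      obtain ⟨j, hj, hx'⟩ := hKY x hxK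
      by_cases hji : j = i
      · subst hji
        rcases hx' with h | h
        · exact absurd (mem_singleton_iff.1 h ▸ hxK) hz
        · exact M.subset_closure _ hTE ⟨Or.inr (mem_biUnion hj h), hxq⟩
      · rcases hx' with h | h
        · rw [mem_singleton_iff.1 h]
          exact M.closure_subset_closure (union_subset hGT (hQT j hj hji)) (hzcl j)
        · exact M.subset_closure _ hTE (hQT j hj hji h)
  obtain ⟨J', hJ', hRJ⟩ := hR.exists_isBase_superset
  obtain ⟨H, hHJ, hHl, hGH⟩ := hRL α M r l hl hrl.le hsm J' G hJ'.indep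
    (by rw [hJ'.closure_eq]; exact hGi.subset_ground) hGl
  have hex : ∃ i ∈ S, z i ∉ H := by
    by_contra hcon
    have hcon' : ∀ i ∈ S, z i ∈ H := fun i hi => by
      by_contra h
      exact hcon ⟨i, hi, h⟩
    have hle : Cardinal.mk S ≤ Cardinal.mk H := by
      refine Cardinal.mk_le_of_injective (f := fun i : S => (⟨z i, hcon' i i.2⟩ : H)) ?_
      intro i j hij
      have h : z i = z j := congrArg Subtype.val hij
      by_contra hne
      have hne' : (i : ι) ≠ j := fun h => hne (Subtype.ext h)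
      exact hYd i j hne' (z i) (hzY i) (h ▸ hzY j)
    rw [hS] at hle
    exact absurd hle (not_le.2 hHl)
  obtain ⟨i, hiS, hiH⟩ := hex
  have hzJ : z i ∈ J' := hRJ (mem_biUnion hiS (Or.inl rfl))
  apply hJ'.indep.notMem_closure_sdiff_of_mem hzJ
  refine Matroid.closure_subset_closure_of_subset_closure ?_ (hzcl i)
  rintro x (hx | hx)
  · refine M.closure_subset_closure ?_ (hGH hx)
    intro y hy
    exact ⟨hHJ hy, fun h => hiH (mem_singleton_iff.1 h ▸ hy)⟩
  · refine M.subset_closure _ (sdiff_subset.trans hJ'.subset_ground) ?_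
    exact ⟨hRJ (mem_biUnion hiS (Or.inr hx)), fun h => (hQY i hx).2 h⟩

end Pool.Agent.L7h60.KM
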